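import Pool.Agent.Helper96.EL.Goals

/-!
# Project EL (MP_e44225_nt), packet DIST: two points with close coordinates
-/

set_option autoImplicit false

namespace Pool.Agent.Helper77.EL

open Pool.Agent.Helper96.EL

universe u

section

variable {F : Type u} [Field F] [DecidableEq F] {W : WeierstrassCurve.Affine F}

theorem four_x {P Q : W.Point} (hP : P ≠ 0) (hQ : Q ≠ 0) (hx : xv P ≠ xv Q) :
    (Yv P + Yv Q) ^ 2 = 4 * (xv (P - Q) * (xv P - xv Q) ^ 2) +
      (xv P - xv Q) ^ 2 * (4 * (xv P + xv Q) + W.b₂) := by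
  have h := (sub_formula hP hQ hx).2
  have h1 := Yv_sq hP
  have h2 := Yv_sq hQ
  have h3 := AA_identity W (xv P) (xv Q)
  linear_combination (-2) * h + h1 + h2 - h3

theorem four_G {P Q : W.Point} (hP : P ≠ 0) (hQ : Q ≠ 0) (hx : xv P ≠ xv Q) :
    4 * GG W (xv P) (xv Q) = xv (P - Q) * ((Yv P - Yv Q) ^ 2 -
      (xv P - xv Q) ^ 2 * (4 * (xv P + xv Q) + W.b₂)) := by
  have h := (sub_formula hP hQ hx).2
  have h1 := Yv_sq hP
  have h2 := Yv_sq hQ
  have h3 := AA_identity W (xv P) (xv Q)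
  have h4 := GG_identity W (xv P) (xv Q)
  have hd : (xv P - xv Q) ^ 2 ≠ 0 := pow_ne_zero 2 (sub_ne_zero.2 hx)
  refine mul_left_cancel₀ hd ?_
  have h5 : (Yv P - Yv Q) ^ 2 - (xv P - xv Q) ^ 2 * (4 * (xv P + xv Q) + W.b₂) =
      2 * AA W (xv P) (xv Q) - 2 * (Yv P * Yv Q) := by
    linear_combination h1 + h2 - h3
  rw [h5]
  have h6 : (xv P - xv Q) ^ 2 * (4 * GG W (xv P) (xv Q)) =
      AA W (xv P) (xv Q) ^ 2 - Yv P ^ 2 * Yv Q ^ 2 := by
    rw [h1, h2, ← h4]
    ring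
  rw [h6]
  linear_combination (-(AA W (xv P) (xv Q) - Yv P * Yv Q)) * h

theorem phi_GG (x₁ x₂ : F) : phi W x₁ = GG W x₁ x₂ +
    (x₁ - x₂) * (x₁ ^ 2 * (x₁ + x₂) - W.b₄ * x₁ - W.b₆) := by
  simp only [phi, GG]
  ring

end

theorem dist (hB : BND.{u}) : DIST.{u} := by
  intro F _ _ _ a W _ R
  by_cases hR' : R < 0
  · refine ⟨1, 1, one_pos, one_pos, fun P Q _ _ _ h => ?_⟩
    exact absurd (h.trans_lt hR') (not_lt.2 (a.nonneg _))
  have hR : 0 ≤ R := not_lt.1 hR'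
  obtain ⟨κ, hκ, hκ2⟩ := (hB F a W).1 R
  obtain ⟨ε, hε⟩ : ∃ ε, ε = a 2 := ⟨_, rfl⟩
  have hε0 : 0 < ε := by
    rw [hε]
    exact a.pos two_ne_zero
  have h4 : a 4 = ε ^ 2 := by
    rw [show (4 : F) = 2 * 2 by norm_num, map_mul, hε, sq]
  obtain ⟨K, hK⟩ : ∃ K, K = ε ^ 2 * (2 * R) + a W.b₂ := ⟨_, rfl⟩
  have hK0 : 0 ≤ K := by
    rw [hK]
    have := a.nonneg W.b₂
    positivity
  obtain ⟨L, hL⟩ : ∃ L, L = R ^ 2 * (2 * R) + a W.b₄ * R + a W.b₆ := ⟨_, rfl⟩
  have hL0 : 0 ≤ L := by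
    rw [hL]
    have := a.nonneg W.b₄
    have := a.nonneg W.b₆
    positivity
  obtain ⟨t, ht⟩ : ∃ t, t = ε * √κ / 4 := ⟨_, rfl⟩
  have ht0 : 0 < t := by
    rw [ht]
    have := Real.sqrt_pos.2 hκ
    positivity
  have ht2 : t ^ 2 = ε ^ 2 * κ / 16 := by
    rw [ht, div_pow, mul_pow, Real.sq_sqrt hκ.le]
    norm_num
  refine ⟨min (κ / 32) (ε ^ 2 * κ / (2 * (1 + K))),
    min t (min (t / (2 * (K + 1))) (κ / (4 * (L + 1)))), ?_, ?_, ?_⟩
  · apply lt_min <;> positivity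
  · refine lt_min ht0 (lt_min ?_ ?_) <;> positivity
  intro P Q hP hQ hPQ hxP hxQ δ hδ0 hδ hx hY
  have hδt : δ ≤ t := hδ.trans (min_le_left _ _)
  have hδK : δ ≤ t / (2 * (K + 1)) := hδ.trans ((min_le_right _ _).trans (min_le_left _ _))
  have hδL : δ ≤ κ / (4 * (L + 1)) := hδ.trans ((min_le_right _ _).trans (min_le_right _ _))
  have hκP := hκ2 (xv P) hxP
  have hpsi : a (psi W (xv P)) = a (Yv P) ^ 2 := by rw [← Yv_sq hP, map_pow]
  have ax3 : 0 ≤ a (xv (P - Q)) := a.nonneg _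
  by_cases hxx : xv P = xv Q
  · -- case A
    have hneg : P = -Q := (eq_or_eq_neg_of_xv hP hQ hxx).resolve_left hPQ
    have hQ2 : -Q = P := hneg.symm
    have hYQ : Yv Q = -Yv P := by
      rw [hneg, Yv_neg, neg_neg]
    have hsub : P - Q = P + P := by
      rw [sub_eq_add_neg, hQ2]
    have hY0 : Yv P ≠ 0 := by
      intro h0
      apply hPQ
      have h1 := two_torsion hP h0
      have h2 : P = -P := eq_neg_of_add_eq_zero_left h1
      rw [h2, ← hQ2, neg_neg]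
    have hdbl := (dbl_formula hP hY0).2
    rw [hYQ] at hY
    have hY2 : ε * a (Yv P) ≤ δ := by
      rw [hε, ← map_mul, show 2 * Yv P = Yv P - -Yv P by ring]
      exact hY
    have hYn := a.nonneg (Yv P)
    have hsq : ε ^ 2 * a (Yv P) ^ 2 ≤ δ ^ 2 := by
      rw [← mul_pow]
      exact pow_le_pow_left₀ (by positivity) hY2 2
    have hsq2 : a (Yv P) ^ 2 ≤ κ / 16 := by
      have h1 : δ ^ 2 ≤ t ^ 2 := pow_le_pow_left₀ hδ0 hδt 2
      rw [ht2] at h1
      have h2 : ε ^ 2 * a (Yv P) ^ 2 ≤ ε ^ 2 * (κ / 16) := by linarith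
      exact le_of_mul_le_mul_left h2 (by positivity)
    have hphi : κ / 2 ≤ a (phi W (xv P)) := by
      rw [hpsi] at hκP
      linarith
    have hx3 : a (xv (P - Q)) * a (Yv P) ^ 2 = a (phi W (xv P)) := by
      rw [hsub, ← hdbl, map_mul, hpsi]
    have hfin : ε ^ 2 * κ / 2 ≤ δ ^ 2 * a (xv (P - Q)) := by
      calc ε ^ 2 * κ / 2 = ε ^ 2 * (κ / 2) := by ring
        _ ≤ ε ^ 2 * (a (xv (P - Q)) * a (Yv P) ^ 2) := by
          rw [hx3]
          gcongr
        _ = (ε ^ 2 * a (Yv P) ^ 2) * a (xv (P - Q)) := by ring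
        _ ≤ δ ^ 2 * a (xv (P - Q)) := by gcongr
    refine (min_le_right _ _).trans (le_trans ?_ hfin)
    apply div_le_div_of_nonneg_left (by positivity) (by norm_num)
    linarith
  · -- case B
    have hS : a (4 * (xv P + xv Q) + W.b₂) ≤ K := by
      rw [hK]
      refine (a.add_le _ _).trans ?_
      rw [map_mul, h4]
      have := a.add_le (xv P) (xv Q)
      gcongr
      linarith
    have hDn := a.nonneg (xv P - xv Q)
    have hD2 : a (xv P - xv Q) ^ 2 ≤ δ ^ 2 := pow_le_pow_left₀ hDn hx 2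
    have hSn := a.nonneg (4 * (xv P + xv Q) + W.b₂)
    by_cases hs : t ≤ a (Yv P + Yv Q)
    · -- B1
      have e1 := four_x hP hQ hxx
      have e2 : a (Yv P + Yv Q) ^ 2 ≤ ε ^ 2 * (a (xv (P - Q)) * a (xv P - xv Q) ^ 2) +
          a (xv P - xv Q) ^ 2 * a (4 * (xv P + xv Q) + W.b₂) := by
        rw [← map_pow, e1]
        refine (a.add_le _ _).trans (le_of_eq ?_)
        simp only [map_mul, map_pow, h4]
      have e3 : t ^ 2 ≤ a (Yv P + Yv Q) ^ 2 := pow_le_pow_left₀ ht0.le hs 2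
      have e4 : ε ^ 2 * (a (xv (P - Q)) * a (xv P - xv Q) ^ 2) ≤
          ε ^ 2 * (a (xv (P - Q)) * δ ^ 2) := by gcongr
      have e5 : a (xv P - xv Q) ^ 2 * a (4 * (xv P + xv Q) + W.b₂) ≤ δ ^ 2 * K := by gcongr
      have e6 : δ ^ 2 * K ≤ t ^ 2 / 2 := by
        have h1 : δ * (2 * (K + 1)) ≤ t := (le_div_iff₀ (by positivity)).1 hδK
        have h2 : δ ^ 2 * K ≤ δ * (δ * (2 * (K + 1))) / 2 := by nlinarith [sq_nonneg δ]
        have h3 : δ * (δ * (2 * (K + 1))) ≤ t * t := mul_le_mul hδt h1 (by positivity) ht0.le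
        nlinarith
      have e7 : ε ^ 2 * (κ / 32) ≤ ε ^ 2 * (δ ^ 2 * a (xv (P - Q))) := by
        have : ε ^ 2 * (κ / 32) = t ^ 2 / 2 := by rw [ht2]; ring
        rw [this]
        nlinarith
      exact (min_le_left _ _).trans (le_of_mul_le_mul_left e7 (by positivity))
    · -- B2
      have hs' : a (Yv P + Yv Q) ≤ t := (not_le.1 hs).le
      have hYn := a.nonneg (Yv P)
      have f1 : ε * a (Yv P) ≤ 2 * t := by
        have h1 : ε * a (Yv P) = a ((Yv P + Yv Q) + (Yv P - Yv Q)) := by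
          rw [hε, ← map_mul]
          congr 1
          ring
        rw [h1]
        refine (a.add_le _ _).trans ?_
        linarith
      have f2 : a (Yv P) ^ 2 ≤ κ / 4 := by
        have h1 : (ε * a (Yv P)) ^ 2 ≤ (2 * t) ^ 2 := pow_le_pow_left₀ (by positivity) f1 2
        rw [mul_pow, mul_pow, ht2] at h1
        have h2 : ε ^ 2 * a (Yv P) ^ 2 ≤ ε ^ 2 * (κ / 4) := by linarith
        exact le_of_mul_le_mul_left h2 (by positivity)
      have f3 : 3 * κ / 4 ≤ a (phi W (xv P)) := by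
        rw [hpsi] at hκP
        linarith
      have f4 : a (xv P ^ 2 * (xv P + xv Q) - W.b₄ * xv P - W.b₆) ≤ L := by
        have g1 : a (xv P ^ 2 * (xv P + xv Q) - W.b₄ * xv P - W.b₆) ≤
            a (xv P ^ 2 * (xv P + xv Q)) + a (W.b₄ * xv P) + a W.b₆ := by
          have h1 := a.add_le (xv P ^ 2 * (xv P + xv Q) - W.b₄ * xv P) (-W.b₆)
          have h2 := a.add_le (xv P ^ 2 * (xv P + xv Q)) (-(W.b₄ * xv P))
          rw [a.map_neg] at h1 h2
          rw [← sub_eq_add_neg] at h1 h2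
          linarith
        refine g1.trans ?_
        rw [hL, map_mul, map_mul, map_pow]
        have h1 := a.add_le (xv P) (xv Q)
        have h2 := a.nonneg (xv P)
        have h3 := a.nonneg W.b₄
        gcongr
        linarith
      have f5 : a (phi W (xv P)) ≤ a (GG W (xv P) (xv Q)) + δ * L := by
        rw [phi_GG (W := W) (xv P) (xv Q)]
        refine (a.add_le _ _).trans ?_
        rw [map_mul]
        have := a.nonneg (xv P ^ 2 * (xv P + xv Q) - W.b₄ * xv P - W.b₆)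
        gcongr
      have f6 : δ * L ≤ κ / 4 := by
        have h1 : δ * (4 * (L + 1)) ≤ κ := (le_div_iff₀ (by positivity)).1 hδL
        nlinarith
      have f7 : κ / 2 ≤ a (GG W (xv P) (xv Q)) := by linarith
      have f8 : ε ^ 2 * a (GG W (xv P) (xv Q)) ≤ a (xv (P - Q)) * (δ ^ 2 * (1 + K)) := by
        have h1 := four_G hP hQ hxx
        have h2 : ε ^ 2 * a (GG W (xv P) (xv Q)) = a (xv (P - Q)) * a ((Yv P - Yv Q) ^ 2 -
            (xv P - xv Q) ^ 2 * (4 * (xv P + xv Q) + W.b₂)) := by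
          rw [← h4, ← map_mul, h1, map_mul]
        rw [h2]
        refine mul_le_mul_of_nonneg_left ?_ ax3
        have h3 := a.add_le ((Yv P - Yv Q) ^ 2)
          (-((xv P - xv Q) ^ 2 * (4 * (xv P + xv Q) + W.b₂)))
        rw [a.map_neg, ← sub_eq_add_neg, map_pow, map_mul, map_pow] at h3
        have h4' : a (Yv P - Yv Q) ^ 2 ≤ δ ^ 2 := pow_le_pow_left₀ (a.nonneg _) hY 2
        have h5 : a (xv P - xv Q) ^ 2 * a (4 * (xv P + xv Q) + W.b₂) ≤ δ ^ 2 * K := by gcongr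
        linarith
      refine (min_le_right _ _).trans ?_
      rw [div_le_iff₀ (by positivity)]
      have f9 : ε ^ 2 * (κ / 2) ≤ ε ^ 2 * a (GG W (xv P) (xv Q)) := by gcongr
      linarith

end Pool.Agent.Helper77.EL
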